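import Pool.Agent.helper48.TH.Spec

set_option autoImplicit false

namespace TP.TW

open DP MeasureTheory Finset

private lemma INF_av_ite {n : ℕ} (P : (Fin n → Bool) → Prop) [DecidablePred P] (c : ℝ) :
    av (fun x => if P x then c else 0) = c * ((#{x | P x} : ℝ) / 2 ^ n) := by
  unfold av
  rw [← Finset.sum_filter, Finset.sum_const, nsmul_eq_mul]
  ring

theorem INF (she : SHE_stmt) (yng : YNG_stmt) (cxe : CXE_stmt) : INF_stmt := by
  classical
  intro n κ T E F Λ A M p hp hE hF hM
  have h2n : (0 : ℝ) < 2 ^ n := by positivity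
  have hp0 : 0 ≤ p := by rw [hp]; positivity
  rcases eq_or_lt_of_le hp0 with h0 | hpos
  · have hzero : (#{x | E x} : ℝ) = 0 := by
      have h1 : (#{x | E x} : ℝ) / 2 ^ n = 0 := by rw [← hp, ← h0]
      rcases div_eq_zero_iff.1 h1 with h | h
      · exact h
      · exact absurd h h2n.ne'
    have hz2 : ∀ τ ∈ T, (#{x | E x ∧ F τ x} : ℝ) / 2 ^ n = 0 := by
      intro τ _
      have h3 : #{x | E x ∧ F τ x} ≤ #{x | E x} := by
        apply Finset.card_le_card
        intro x hx
        rw [Finset.mem_filter] at hx ⊢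
        exact ⟨hx.1, hx.2.1⟩
      have h4 : #{x | E x} = 0 := by exact_mod_cast hzero
      have h5 : #{x | E x ∧ F τ x} = 0 := by omega
      rw [h5]; simp
    rw [Finset.sum_eq_zero hz2, ← h0]
    simp
  · set f : (Fin n → Bool) → ℝ := fun x => if E x then 1 / p else 0 with hf
    have hf0 : ∀ x, 0 ≤ f x := by
      intro x
      simp only [hf]
      split_ifs
      · positivity
      · exact le_refl _
    have havf : av f = 1 := by
      rw [hf, INF_av_ite, ← hp]
      field_simp
    have hEt : Et f = Real.log (1 / p) := by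
      unfold Et
      rw [havf]
      have h1 : (fun x => ph (f x)) = fun x => if E x then (1 / p) * Real.log (1 / p) else 0 := by
        funext x
        simp only [hf]
        unfold ph
        split_ifs
        · rfl
        · simp
      rw [h1, INF_av_ite, ← hp]
      unfold ph
      rw [Real.log_one, mul_zero, sub_zero]
      field_simp
    obtain ⟨d, hd0, hdsum, hdA⟩ := she n f hf0
    have hfΛ : ∀ x y, (∀ i ∈ Λ, x i = y i) → f x = f y := by
      intro x y hxy
      have h := hE x y hxy
      simp only [hf]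
      by_cases hx : E x
      · rw [if_pos hx, if_pos (h.1 hx)]
      · rw [if_neg hx, if_neg (fun hy => hx (h.2 hy))]
    have hterm : ∀ τ ∈ T, (#{x | E x ∧ F τ x} : ℝ) / 2 ^ n ≤
        p * ((∑ i ∈ A τ ∩ Λ, d i) + 2 * ((#{x | F τ x} : ℝ) / 2 ^ n)) := by
      intro τ hτ
      obtain ⟨h1, h2, h3, h4⟩ := cxe n (A τ) f
      have hA := h3 (F τ) (hF τ hτ)
      have hY := yng n (cex (A τ) f) (F τ) (h1 hf0) (by rw [h2, havf])
      have hS : Et (cex (A τ) f) ≤ ∑ i ∈ A τ ∩ Λ, d i := by
        rw [h4 Λ hfΛ]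
        exact hdA _
      have h5 : (fun x => if F τ x then f x else 0) = fun x => if (E x ∧ F τ x) then 1 / p else 0 := by
        funext x
        simp only [hf]
        by_cases hx : E x
        · by_cases hy : F τ x
          · rw [if_pos hy, if_pos hx, if_pos ⟨hx, hy⟩]
          · rw [if_neg hy, if_neg (fun h => hy h.2)]
        · by_cases hy : F τ x
          · rw [if_pos hy, if_neg hx, if_neg (fun h => hx h.1)]
          · rw [if_neg hy, if_neg (fun h => hy h.2)]
      have h6 : p * av (fun x => if F τ x then f x else 0) = (#{x | E x ∧ F τ x} : ℝ) / 2 ^ n := by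
        rw [h5, INF_av_ite]
        field_simp
      rw [← h6]
      refine mul_le_mul_of_nonneg_left ?_ hp0
      rw [hA]
      linarith
    have hcount : ∑ τ ∈ T, ∑ i ∈ A τ ∩ Λ, d i ≤ M * Real.log (1 / p) := by
      have h1 : ∀ τ ∈ T, ∑ i ∈ A τ ∩ Λ, d i = ∑ i ∈ Λ, if i ∈ A τ then d i else 0 := by
        intro τ _
        rw [← Finset.sum_filter]
        refine Finset.sum_congr ?_ fun _ _ => rfl
        ext i
        rw [Finset.mem_inter, Finset.mem_filter]
        exact and_comm
      rw [Finset.sum_congr rfl h1, Finset.sum_comm]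
      have h2 : ∀ i ∈ Λ, ∑ τ ∈ T, (if i ∈ A τ then d i else 0) ≤ M * d i := by
        intro i hi
        rw [← Finset.sum_filter, Finset.sum_const, nsmul_eq_mul]
        refine mul_le_mul_of_nonneg_right ?_ (hd0 i)
        exact_mod_cast hM i hi
      refine (Finset.sum_le_sum h2).trans ?_
      rw [← Finset.mul_sum, ← hEt, ← hdsum]
      refine mul_le_mul_of_nonneg_left ?_ (Nat.cast_nonneg _)
      exact Finset.sum_le_sum_of_subset_of_nonneg (Finset.subset_univ _) fun i _ _ => hd0 i
    calc ∑ τ ∈ T, (#{x | E x ∧ F τ x} : ℝ) / 2 ^ n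
        ≤ ∑ τ ∈ T, p * ((∑ i ∈ A τ ∩ Λ, d i) + 2 * ((#{x | F τ x} : ℝ) / 2 ^ n)) :=
          Finset.sum_le_sum hterm
      _ = p * (∑ τ ∈ T, ∑ i ∈ A τ ∩ Λ, d i) + 2 * p * ∑ τ ∈ T, (#{x | F τ x} : ℝ) / 2 ^ n := by
          rw [← Finset.mul_sum, Finset.sum_add_distrib, ← Finset.mul_sum]
          ring
      _ ≤ _ := by
          have := mul_le_mul_of_nonneg_left hcount hp0
          linarith

end TP.TW
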