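import Pool.Agent.helper48.TH.Spec3

set_option autoImplicit false

namespace TP.TW

open DP MeasureTheory Finset

private theorem FN3_inj {n : ℕ} : Function.Injective (phi (n := n)) := by
  intro p q h
  simp only [phi, Prod.mk.injEq] at h
  obtain ⟨h1, h2⟩ := h
  ext <;> omega

private theorem FN3_br {n : ℕ} (p : Fin n × Fin n) : br (phi p) = phi p := by
  apply br_of_even
  simp only [phi]
  omega

private theorem FN3_log {n : ℕ} (hn : 2 ≤ n) : (1 : ℝ) / 2 ≤ Real.log n := by
  have h1 : Real.log 2 ≤ Real.log n := Real.log_le_log (by norm_num) (by exact_mod_cast hn)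
  have h2 := Real.log_two_gt_d9
  linarith

private theorem FN3_avg {n : ℕ} (h3 : BR2_stmt) (B : (Fin n × Fin n → Bool) → Finset (Fin n × Fin n)) :
    ∑ v ∈ (univ : Finset (Fin n × Fin n)).image phi,
      Pr {β : V → Bool | v ∈ (B fun q => β (phi q)).image phi} =
    (∑ x : Fin n × Fin n → Bool, (#(B x) : ℝ)) / 2 ^ (n * n) := by
  classical
  rw [Finset.sum_image fun p _ q _ h => FN3_inj h]
  have h1 : ∀ p : Fin n × Fin n, Pr {β : V → Bool | phi p ∈ (B fun q => β (phi q)).image phi} =
      (∑ x : Fin n × Fin n → Bool, if p ∈ B x then (1 : ℝ) else 0) / 2 ^ (n * n) := by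
    intro p
    have h2 : {β : V → Bool | phi p ∈ (B fun q => β (phi q)).image phi} =
        {β : V → Bool | (fun x : Fin n × Fin n → Bool => p ∈ B x) (fun q => β (phi q))} := by
      ext β
      simp only [Set.mem_ofPred_eq, Finset.mem_image]
      constructor
      · rintro ⟨q, hq, hqp⟩
        have := FN3_inj hqp
        rwa [← this]
      · intro hp
        exact ⟨p, hp, rfl⟩
    rw [h2, h3 n (fun x => p ∈ B x)]
    congr 1
    rw [← Finset.sum_filter, Finset.sum_const, nsmul_eq_mul, mul_one]
    refine congrArg Nat.cast (congrArg Finset.card ?_)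
    ext x
    simp only [Finset.mem_filter]
  rw [Finset.sum_congr rfl fun p _ => h1 p, ← Finset.sum_div, Finset.sum_comm]
  congr 1
  refine Finset.sum_congr rfl fun x _ => ?_
  rw [← Finset.sum_filter, Finset.sum_const, nsmul_eq_mul, mul_one, Finset.filter_mem_eq_inter,
    Finset.univ_inter]

theorem FN3 (h1 : FNL_stmt) (h2 : SUA_stmt) (h3 : BR2_stmt) : FN3_stmt := by
  classical
  obtain ⟨C0, hC0, hS⟩ := h2
  refine ⟨1 / (4 + 3 * C0), by positivity, ?_⟩
  intro n hn A B C hB hC hX
  have hlog := FN3_log hn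
  have hL := h1 n (fun x => A ∪ B x) C (by omega) (by
      intro x y hxy
      have e1 : B x = B y := hB x y fun p hp => hxy p (Finset.mem_union_left _ hp)
      have e2 : C x = C y := hC x y hxy
      exact ⟨by simp only [e1], e2.symm⟩) (by
      intro x y hxy
      exact hX x y hxy)
  set a : ℝ := (∑ x : Fin n × Fin n → Bool, (#(A ∪ B x ∪ C x) : ℝ)) / 2 ^ (n * n) with ha
  have hU := hS n (A.image phi) ((univ : Finset (Fin n × Fin n)).image phi)
    (fun β => (B fun q => β (phi q)).image phi) hn
    (Finset.image_subset_image (Finset.subset_univ _)) (Finset.Subset.refl _) (by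
      refine ⟨?_, ?_, ?_, ?_⟩
      · intro v hv
        obtain ⟨p, _, rfl⟩ := Finset.mem_image.1 hv
        exact FN3_br p
      · intro v hv
        obtain ⟨p, _, rfl⟩ := Finset.mem_image.1 hv
        exact FN3_br p
      · intro β
        exact Finset.image_subset_image (Finset.subset_univ _)
      · intro β β' hβ
        have : B (fun q => β (phi q)) = B (fun q => β' (phi q)) := by
          apply hB
          intro p hp
          exact hβ _ (Finset.mem_image_of_mem phi hp)
        simp only [this])
  simp only [Finset.image_union] at hL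
  rw [FN3_avg h3 B] at hU
  have hpow : (0 : ℝ) < 2 ^ (n * n) := by positivity
  have hb : (∑ x : Fin n × Fin n → Bool, (#(B x) : ℝ)) / 2 ^ (n * n) ≤ a := by
    rw [ha]
    refine div_le_div_of_nonneg_right ?_ hpow.le
    refine Finset.sum_le_sum fun x _ => ?_
    exact_mod_cast Finset.card_le_card (fun p hp =>
      Finset.mem_union_left _ (Finset.mem_union_right _ hp))
  have hA : (#(A.image phi) : ℝ) ≤ a := by
    rw [ha, le_div_iff₀ hpow]
    have e1 : (#(A.image phi) : ℝ) ≤ #A := by exact_mod_cast Finset.card_image_le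
    have e2 : ∑ x : Fin n × Fin n → Bool, (#A : ℝ) ≤ ∑ x : Fin n × Fin n → Bool, (#(A ∪ B x ∪ C x) : ℝ) := by
      refine Finset.sum_le_sum fun x _ => ?_
      exact_mod_cast Finset.card_le_card (fun p hp =>
        Finset.mem_union_left _ (Finset.mem_union_left _ hp))
    have e3 : ∑ x : Fin n × Fin n → Bool, (#A : ℝ) = #A * 2 ^ (n * n) := by
      rw [Finset.sum_const, nsmul_eq_mul, Finset.card_univ, Fintype.card_fun, Fintype.card_prod,
        Fintype.card_fin, Fintype.card_bool]
      push_cast
      ring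
    calc (#(A.image phi) : ℝ) * 2 ^ (n * n) ≤ #A * 2 ^ (n * n) :=
          mul_le_mul_of_nonneg_right e1 hpow.le
      _ ≤ _ := by rw [← e3]; exact e2
  have ha0 : 0 ≤ a := by
    rw [ha]; positivity
  set L := Real.log n with hLdef
  have hL0 : 0 < L := by linarith
  have key : (n : ℝ) ^ 2 ≤ a + C0 * L * (a * L + a) := by
    refine hL.trans ?_
    refine add_le_add (le_refl _) (hU.trans ?_)
    refine mul_le_mul_of_nonneg_left ?_ (by positivity)
    refine add_le_add (mul_le_mul_of_nonneg_right hA hL0.le) hb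
  have k1 : (1 : ℝ) ≤ 4 * L ^ 2 := by nlinarith
  have k2 : L ≤ 2 * L ^ 2 := by nlinarith
  have key2 : (n : ℝ) ^ 2 ≤ (4 + 3 * C0) * (L ^ 2 * a) := by
    have e1 : a ≤ 4 * L ^ 2 * a := by nlinarith
    have e2 : C0 * L * a ≤ C0 * (2 * L ^ 2) * a := by
      refine mul_le_mul_of_nonneg_right ?_ ha0
      exact mul_le_mul_of_nonneg_left k2 hC0.le
    nlinarith
  rw [div_le_iff₀ (by positivity)]
  have hc : (0 : ℝ) < 4 + 3 * C0 := by positivity
  rw [one_div, inv_mul_le_iff₀ hc]
  linarith

end TP.TW
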